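import Pool.Agent.Y223.G.Stm5

/-!
# Project G (helper223), job G5-RGFT: the graded algebra of a chart is of finite type
-/

set_option autoImplicit false

namespace Pool.Agent.Y739.G

open Pool.Agent.Y223.G

/-- A subalgebra which is locally (on the spectrum) contained in finitely generated larger
subalgebras is finitely generated. -/
lemma fg_of_local {k K : Type} [CommRing k] [Field K] [Algebra k K] (R : Subalgebra k (LP K))
    {N : Type} [Finite N] (F : N → Subalgebra k (LP K)) (s : N → LP K) (hs : ∀ i, s i ∈ R)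
    (hle : ∀ i, R ≤ F i) (hfg : ∀ i, (F i).FG) (hF : ∀ i, ∀ f ∈ F i, ∃ n : ℕ, s i ^ n * f ∈ R)
    (h1 : ∃ t : Finset N, ∑ i ∈ t, s i = 1) : R.FG := by
  classical
  cases nonempty_fintype N
  choose G hG using hfg
  have hGF : ∀ i, ∀ g ∈ G i, g ∈ F i := by
    intro i g hg
    rw [← hG i]
    exact Algebra.subset_adjoin hg
  have hn : ∀ i, ∀ g, ∃ n : ℕ, g ∈ G i → s i ^ n * g ∈ R := by
    intro i g
    by_cases hg : g ∈ G i
    · obtain ⟨n, hn⟩ := hF i g (hGF i g hg)
      exact ⟨n, fun _ => hn⟩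
    · exact ⟨0, fun h => absurd h hg⟩
  choose n hn using hn
  set S : Finset (LP K) := Finset.univ.image s ∪
    Finset.univ.biUnion fun i => (G i).image fun g => s i ^ n i g * g with hS
  refine ⟨S, ?_⟩
  set R' : Subalgebra k (LP K) := Algebra.adjoin k (S : Set (LP K)) with hR'
  have hs' : ∀ i, s i ∈ R' := by
    intro i
    apply Algebra.subset_adjoin
    rw [Finset.mem_coe, hS, Finset.mem_union]
    exact Or.inl (Finset.mem_image_of_mem s (Finset.mem_univ i))
  have hg' : ∀ i, ∀ g ∈ G i, s i ^ n i g * g ∈ R' := by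
    intro i g hg
    apply Algebra.subset_adjoin
    rw [Finset.mem_coe, hS, Finset.mem_union]
    refine Or.inr (Finset.mem_biUnion.2 ⟨i, Finset.mem_univ i, ?_⟩)
    exact Finset.mem_image_of_mem _ hg
  apply le_antisymm
  · rw [hR', Algebra.adjoin_le_iff]
    intro f hf
    rw [Finset.mem_coe, hS, Finset.mem_union] at hf
    rcases hf with hf | hf
    · obtain ⟨i, -, rfl⟩ := Finset.mem_image.1 hf
      exact hs i
    · obtain ⟨i, -, hi⟩ := Finset.mem_biUnion.1 hf
      obtain ⟨g, hg, rfl⟩ := Finset.mem_image.1 hi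
      exact hn i g hg
  · intro f hf
    -- `f` is locally in `R'`
    have hloc : ∀ i, ∃ m : ℕ, s i ^ m * f ∈ R' := by
      intro i
      have h2 : F i ≤ loc R' (s i) (hs' i) := by
        rw [← hG i, Algebra.adjoin_le_iff]
        intro g hg
        exact ⟨n i g, hg' i g hg⟩
      exact h2 (hle i hf)
    let J : Ideal R' :=
      { carrier := {r | (r : LP K) * f ∈ R'}
        add_mem' := by
          intro a b ha hb
          change ((a + b : R') : LP K) * f ∈ R'
          rw [Subalgebra.coe_add, add_mul]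
          exact R'.add_mem ha hb
        zero_mem' := by
          change ((0 : R') : LP K) * f ∈ R'
          rw [Subalgebra.coe_zero, zero_mul]
          exact R'.zero_mem
        smul_mem' := by
          intro c a ha
          change ((c * a : R') : LP K) * f ∈ R'
          rw [Subalgebra.coe_mul, mul_assoc]
          exact R'.mul_mem c.2 ha }
    have hrad : J.radical = ⊤ := by
      rw [Ideal.eq_top_iff_one]
      obtain ⟨t, ht⟩ := h1
      have h3 : (1 : R') = ∑ i ∈ t, (⟨s i, hs' i⟩ : R') := by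
        apply Subtype.ext
        rw [AddSubmonoidClass.coe_finsetSum]
        simp only [Subalgebra.coe_one]
        exact ht.symm
      rw [h3]
      refine Ideal.sum_mem _ fun i _ => ?_
      obtain ⟨m, hm⟩ := hloc i
      exact ⟨m, hm⟩
    rw [Ideal.radical_eq_top] at hrad
    have h4 : (1 : R') ∈ J := by rw [hrad]; exact Submodule.mem_top
    have h5 : ((1 : R') : LP K) * f ∈ R' := h4
    rwa [Subalgebra.coe_one, one_mul] at h5

theorem t_RGFT : S_RFT0 → S_RGLU → S_RGFT := by
  intro hRFT hGLU k O K G _ _ _ _ _ _ _ _ _ _ _ ρ T N _ 𝔔 p l τ hL C hC hft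
  classical
  cases nonempty_fintype N
  have hpos : ∀ i, 0 < p i := by
    intro i
    rcases hL.ty i with h | h
    · rw [h.1]; exact one_pos
    · exact h.1.pp.pos
  have hRi : ∀ i, Algebra.FiniteType k (RR k (ρ (τ i)) (p i) (𝔔 i) (l i) C) := fun i =>
    hRFT k O K (p i) (hpos i) (ρ (τ i)) (𝔔 i) (l i) hL.ft (fun o => ⟨_, hL.com (τ i) o⟩) C
      (hC (τ i)) hft
  have hR0 : Algebra.FiniteType k (RR k (1 : K ≃ₐ[k] K) 1 (⊤ : Ideal O) 0 C) :=
    hRFT k O K 1 one_pos 1 ⊤ 0 hL.ft (fun o => ⟨o, rfl⟩) C (fun c hc => hc) hft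
  rcases isEmpty_or_nonempty N with hN | hN
  · have h : RG k ρ 𝔔 p l τ C = RR k (1 : K ≃ₐ[k] K) 1 (⊤ : Ideal O) 0 C := by
      unfold RG
      rw [iInf_of_empty, inf_top_eq]
    rw [h]
    exact hR0
  · -- a partition of unity
    have hcop : (⨆ i ∈ (Finset.univ : Finset N), ⨅ (j) (_ : j ∈ (Finset.univ : Finset N))
        (_ : j ≠ i), 𝔔 j) = ⊤ := by
      rw [Ideal.iSup_iInf_eq_top_iff_pairwise Finset.univ_nonempty]
      intro i _ j _ hij
      exact Ideal.IsMaximal.coprime_of_ne (hL.mx i) (hL.mx j) fun h => hij (hL.dj i j h)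
    have h1 : (1 : O) ∈ (⨆ i ∈ (Finset.univ : Finset N), ⨅ (j) (_ : j ∈ (Finset.univ : Finset N))
        (_ : j ≠ i), 𝔔 j) := by
      rw [hcop]; exact Submodule.mem_top
    rw [Submodule.mem_iSup_finset_iff_exists_sum] at h1
    obtain ⟨μ, hμ⟩ := h1
    have hμj : ∀ i j, j ≠ i → (μ i : O) ∈ 𝔔 j := by
      intro i j hji
      have := (μ i).2
      simp only [Ideal.mem_iInf] at this
      exact this j (Finset.mem_univ j) hji
    rw [← Subalgebra.fg_iff_finiteType]
    have hle : ∀ i, RG k ρ 𝔔 p l τ C ≤ RR k (ρ (τ i)) (p i) (𝔔 i) (l i) C := fun i =>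
      inf_le_right.trans (iInf_le _ i)
    refine fg_of_local (RG k ρ 𝔔 p l τ C) (fun i => RR k (ρ (τ i)) (p i) (𝔔 i) (l i) C)
      (fun i => hm 0 (algebraMap O K (μ i))) ?_ hle (fun i => (Subalgebra.fg_iff_finiteType _).2 (hRi i))
      ?_ ⟨Finset.univ, ?_⟩
    · intro i
      refine ⟨RR_c one_pos (C.algebraMap_mem _), ?_⟩
      refine Algebra.mem_iInf.2 fun j => ?_
      exact RR_c (hpos j) (C.algebraMap_mem _)
    · intro i f hf
      exact (hGLU k O K G ρ T N 𝔔 p l τ hL C hC).1 i (μ i) (fun j hj => hμj i j hj) f hf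
    · have h2 : ∀ t : Finset N, ∑ i ∈ t, (hm 0 (algebraMap O K (μ i)) : LP K) =
          hm 0 (algebraMap O K (∑ i ∈ t, (μ i : O))) := by
        intro t
        induction t using Finset.induction_on with
        | empty => simp [hm_zero]
        | insert i t hi ih => rw [Finset.sum_insert hi, Finset.sum_insert hi, ih, map_add, hm_add]
      rw [h2, hμ, map_one, hm_one]

end Pool.Agent.Y739.G
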